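import Pool.Agent.W728.PK.Stms

/-!
# Project PK, subtask EXK: the kernel bound for the explicit family
-/

namespace Pool.Agent.W521.PK

open Complex Metric Set Filter Topology MeasureTheory
open Pool.Agent.W728.PK
open scoped Real ComplexConjugate

/-- sum of `1/|i - a|` over `i < N`, `i ≠ a`. -/
theorem sum_inv_abs_le (N a : ℕ) (ha : a < N) :
    ∑ i ∈ Finset.range N, (if i = a then (0 : ℝ) else 1 / |(i : ℝ) - (a : ℝ)|)
      ≤ 2 * (1 + Real.log N) := by
  have hH : ∑ i ∈ Finset.range N, (1 : ℝ) / ((i : ℝ) + 1) ≤ 1 + Real.log N := by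
    have h := harmonic_le_one_add_log N
    rw [harmonic] at h
    push_cast at h
    simpa [one_div] using h
  obtain ⟨M, rfl⟩ : ∃ M, N = a + (M + 1) := ⟨N - a - 1, by omega⟩
  rw [Finset.sum_range_add, Finset.sum_range_succ']
  have h1 : ∑ x ∈ Finset.range a, (if x = a then (0 : ℝ) else 1 / |(x : ℝ) - (a : ℝ)|)
      ≤ ∑ i ∈ Finset.range (a + (M + 1)), (1 : ℝ) / ((i : ℝ) + 1) := by
    rw [← Finset.sum_range_reflect]
    calc ∑ j ∈ Finset.range a, (if a - 1 - j = a then (0 : ℝ)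
            else 1 / |((a - 1 - j : ℕ) : ℝ) - (a : ℝ)|)
        = ∑ j ∈ Finset.range a, (1 : ℝ) / ((j : ℝ) + 1) := by
          refine Finset.sum_congr rfl fun j hj => ?_
          have hj' := Finset.mem_range.1 hj
          rw [if_neg (by omega)]
          congr 1
          have : ((a - 1 - j : ℕ) : ℝ) = (a : ℝ) - 1 - j := by
            rw [Nat.sub_sub, Nat.cast_sub (by omega)]; push_cast; ring
          rw [this, show (a : ℝ) - 1 - j - a = -((j : ℝ) + 1) by ring, abs_neg,
            abs_of_nonneg (by positivity)]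
      _ ≤ _ := by
          refine Finset.sum_le_sum_of_subset_of_nonneg ?_ fun i _ _ => by positivity
          intro x hx
          rw [Finset.mem_range] at hx ⊢
          omega
  have h2 : ∑ k ∈ Finset.range M, (if a + (k + 1) = a then (0 : ℝ)
        else 1 / |((a + (k + 1) : ℕ) : ℝ) - (a : ℝ)|)
      ≤ ∑ i ∈ Finset.range (a + (M + 1)), (1 : ℝ) / ((i : ℝ) + 1) := by
    calc _ = ∑ j ∈ Finset.range M, (1 : ℝ) / ((j : ℝ) + 1) := by
          refine Finset.sum_congr rfl fun j hj => ?_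
          rw [if_neg (by omega)]
          congr 1
          push_cast
          rw [show (a : ℝ) + ((j : ℝ) + 1) - a = (j : ℝ) + 1 by ring,
            abs_of_nonneg (by positivity)]
      _ ≤ _ := by
          refine Finset.sum_le_sum_of_subset_of_nonneg ?_ fun i _ _ => by positivity
          intro x hx
          rw [Finset.mem_range] at hx ⊢
          omega
  have h3 : (if a + 0 = a then (0 : ℝ) else 1 / |((a + 0 : ℕ) : ℝ) - (a : ℝ)|) = 0 := by
    simp
  rw [h3]
  linarith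

/-- The sum over one block of separated points. -/
theorem block_le {N : ℕ} (hN : 1 ≤ N) (p : Fin N → ℂ) {κ D δ : ℝ} (hκ : 0 < κ) (hD : 0 ≤ D)
    (hδ : 0 < δ) (hp : ∀ i k : Fin N, κ * |((i : ℕ) : ℝ) - ((k : ℕ) : ℝ)| ≤ ‖p i - p k‖) (z : ℂ)
    (t : Finset (Fin N)) (ht : ∀ i ∈ t, δ ≤ ‖z - p i‖) :
    ∑ i ∈ t, D / ‖z - p i‖ ≤ D / δ + 4 * D / κ * (1 + Real.log N) := by
  have : Nonempty (Fin N) := ⟨⟨0, by omega⟩⟩
  obtain ⟨i₀, hi₀⟩ := Finite.exists_min (fun i : Fin N => ‖z - p i‖)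
  -- termwise bound
  have hterm : ∀ i ∈ t, D / ‖z - p i‖ ≤ (if i = i₀ then D / δ else 0)
      + 2 * D / κ * (if (i : ℕ) = (i₀ : ℕ) then (0 : ℝ)
          else 1 / |((i : ℕ) : ℝ) - ((i₀ : ℕ) : ℝ)|) := by
    intro i hi
    by_cases h : i = i₀
    · subst h
      simp only [if_true, mul_zero, add_zero]
      exact div_le_div_of_nonneg_left hD hδ (ht i hi)
    · have h' : (i : ℕ) ≠ (i₀ : ℕ) := fun e => h (Fin.ext e)
      rw [if_neg h, if_neg h', zero_add]
      have hne : ((i : ℕ) : ℝ) - ((i₀ : ℕ) : ℝ) ≠ 0 := by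
        rw [sub_ne_zero]; exact_mod_cast h'
      have hpos : 0 < |((i : ℕ) : ℝ) - ((i₀ : ℕ) : ℝ)| := abs_pos.2 hne
      have h1 : ‖p i - p i₀‖ ≤ 2 * ‖z - p i‖ := by
        have e : p i - p i₀ = (z - p i₀) - (z - p i) := by ring
        rw [e]
        refine (norm_sub_le _ _).trans ?_
        have := hi₀ i
        linarith
      have h2 := hp i i₀
      have h3 : κ * |((i : ℕ) : ℝ) - ((i₀ : ℕ) : ℝ)| / 2 ≤ ‖z - p i‖ := by linarith
      calc D / ‖z - p i‖ ≤ D / (κ * |((i : ℕ) : ℝ) - ((i₀ : ℕ) : ℝ)| / 2) :=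
            div_le_div_of_nonneg_left hD (by positivity) h3
        _ = 2 * D / κ * (1 / |((i : ℕ) : ℝ) - ((i₀ : ℕ) : ℝ)|) := by
            field_simp
  refine (Finset.sum_le_sum hterm).trans ?_
  rw [Finset.sum_add_distrib]
  have hA : ∑ i ∈ t, (if i = i₀ then D / δ else 0) ≤ D / δ := by
    calc _ ≤ ∑ i ∈ Finset.univ, (if i = i₀ then D / δ else 0) := by
          refine Finset.sum_le_sum_of_subset_of_nonneg (Finset.subset_univ _) fun i _ _ => ?_
          split_ifs <;> positivity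
      _ = D / δ := by simp
  have hB : ∑ i ∈ t, (2 * D / κ * (if (i : ℕ) = (i₀ : ℕ) then (0 : ℝ)
          else 1 / |((i : ℕ) : ℝ) - ((i₀ : ℕ) : ℝ)|)) ≤ 4 * D / κ * (1 + Real.log N) := by
    rw [← Finset.mul_sum]
    have h0 : ∑ i ∈ t, (if (i : ℕ) = (i₀ : ℕ) then (0 : ℝ)
          else 1 / |((i : ℕ) : ℝ) - ((i₀ : ℕ) : ℝ)|) ≤ 2 * (1 + Real.log N) := by
      calc _ ≤ ∑ i : Fin N, (if (i : ℕ) = (i₀ : ℕ) then (0 : ℝ)
              else 1 / |((i : ℕ) : ℝ) - ((i₀ : ℕ) : ℝ)|) := by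
            refine Finset.sum_le_sum_of_subset_of_nonneg (Finset.subset_univ _) fun i _ _ => ?_
            split_ifs <;> positivity
        _ = ∑ i ∈ Finset.range N, (if i = (i₀ : ℕ) then (0 : ℝ)
              else 1 / |(i : ℝ) - ((i₀ : ℕ) : ℝ)|) :=
            Fin.sum_univ_eq_sum_range (fun i : ℕ => (if i = (i₀ : ℕ) then (0 : ℝ)
              else 1 / |(i : ℝ) - ((i₀ : ℕ) : ℝ)|)) N
        _ ≤ _ := sum_inv_abs_le N i₀ i₀.2
    have h1 : 0 ≤ 2 * D / κ := by positivity
    calc _ ≤ 2 * D / κ * (2 * (1 + Real.log N)) := mul_le_mul_of_nonneg_left h0 h1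
      _ = _ := by ring
  linarith

theorem sum_pow_le (J : Finset ℕ) (X : ℝ) (hX : 0 ≤ X)
    (hJ : ∀ j ∈ J, (2 : ℝ) ^ (j + 1) < X) : ∑ j ∈ J, (2 : ℝ) ^ (j + 1) ≤ 2 * X := by
  rcases J.eq_empty_or_nonempty with h | h
  · subst h; simpa using hX
  · set m := J.max' h with hm
    have h1 : J ⊆ Finset.range (m + 1) := by
      intro x hx
      rw [Finset.mem_range]
      have := J.le_max' x hx
      omega
    calc ∑ j ∈ J, (2 : ℝ) ^ (j + 1) ≤ ∑ j ∈ Finset.range (m + 1), (2 : ℝ) ^ (j + 1) :=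
          Finset.sum_le_sum_of_subset_of_nonneg h1 fun i _ _ => by positivity
      _ = 2 * ∑ j ∈ Finset.range (m + 1), (2 : ℝ) ^ j := by
          rw [Finset.mul_sum]
          exact Finset.sum_congr rfl fun j _ => by ring
      _ = 2 * ((2 : ℝ) ^ (m + 1) - 1) := by
          rw [geom_sum_eq (by norm_num)]; norm_num
      _ ≤ 2 * X := by
          have := hJ m (J.max'_mem h)
          linarith

theorem lev_pos (j : ℕ) : 0 < lev j := by unfold lev; positivity

theorem lev_le (j : ℕ) : lev j ≤ 1 / 2 := by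
  unfold lev
  rw [pow_succ]
  have : (1 / 2 : ℝ) ^ j ≤ 1 := pow_le_one₀ (by norm_num) (by norm_num)
  linarith

theorem inv_lev (j : ℕ) : 1 / lev j = 2 ^ (j + 1) := by
  unfold lev
  rw [one_div_pow, one_div_one_div]

/-- separation inside a block. -/
theorem sep_block (α : ℝ) (j : ℕ) (hN : 1 ≤ NN α j) (i k : Fin (NN α j)) :
    lev j / (π * NN α j) * |((i : ℕ) : ℝ) - ((k : ℕ) : ℝ)|
      ≤ ‖pp α ⟨j, i⟩ - pp α ⟨j, k⟩‖ := by
  have hNpos : (0 : ℝ) < (NN α j : ℝ) := by exact_mod_cast hN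
  have hL := lev_pos j
  have hL2 := lev_le j
  have e : th α ⟨j, i⟩ - th α ⟨j, k⟩
      = lev j / (2 * NN α j) * (((i : ℕ) : ℝ) - ((k : ℕ) : ℝ)) := by
    simp only [th]
    field_simp
    ring
  have hi : ((i : ℕ) : ℝ) ≤ NN α j := by exact_mod_cast i.2.le
  have hk : ((k : ℕ) : ℝ) ≤ NN α j := by exact_mod_cast k.2.le
  have hi0 : (0 : ℝ) ≤ ((i : ℕ) : ℝ) := Nat.cast_nonneg _
  have hk0 : (0 : ℝ) ≤ ((k : ℕ) : ℝ) := Nat.cast_nonneg _
  have habs : |th α ⟨j, i⟩ - th α ⟨j, k⟩|
      = lev j / (2 * NN α j) * |((i : ℕ) : ℝ) - ((k : ℕ) : ℝ)| := by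
    rw [e, abs_mul, abs_of_pos (by positivity)]
  have hle : |th α ⟨j, i⟩ - th α ⟨j, k⟩| ≤ π := by
    rw [habs]
    have h1 : |((i : ℕ) : ℝ) - ((k : ℕ) : ℝ)| ≤ NN α j := by
      rw [abs_le]; constructor <;> linarith
    calc lev j / (2 * NN α j) * |((i : ℕ) : ℝ) - ((k : ℕ) : ℝ)|
        ≤ lev j / (2 * NN α j) * NN α j := mul_le_mul_of_nonneg_left h1 (by positivity)
      _ = lev j / 2 := by field_simp
      _ ≤ π := by linarith [Real.pi_gt_three]
  have h := le_chord (th α ⟨j, i⟩) (th α ⟨j, k⟩) hle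
  rw [habs] at h
  have e2 : 2 / π * (lev j / (2 * NN α j) * |((i : ℕ) : ℝ) - ((k : ℕ) : ℝ)|)
      = lev j / (π * NN α j) * |((i : ℕ) : ℝ) - ((k : ℕ) : ℝ)| := by
    have := Real.pi_pos
    field_simp
  rw [e2] at h
  exact h

theorem near_one (α : ℝ) (j : ℕ) (i : Fin (NN α j)) (hN : 1 ≤ NN α j) :
    ‖1 - pp α ⟨j, i⟩‖ ≤ 3 / 2 * lev j := by
  have hNpos : (0 : ℝ) < (NN α j : ℝ) := by exact_mod_cast hN
  have hL := lev_pos j
  have h := chord_le 0 (th α ⟨j, i⟩)
  have e : Complex.exp (((0 : ℝ) : ℂ) * I) = 1 := by simp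
  rw [e] at h
  refine h.trans ?_
  have hi : ((i : ℕ) : ℝ) ≤ NN α j := by exact_mod_cast i.2.le
  have hi0 : (0 : ℝ) ≤ ((i : ℕ) : ℝ) := Nat.cast_nonneg _
  have h1 : ((i : ℕ) : ℝ) / (2 * (NN α j : ℝ)) ≤ 1 / 2 := by
    rw [div_le_iff₀ (by positivity)]; linarith
  have h2 : 0 ≤ ((i : ℕ) : ℝ) / (2 * (NN α j : ℝ)) := by positivity
  have h3 : 0 ≤ th α ⟨j, i⟩ := by
    simp only [th]; positivity
  rw [zero_sub, abs_neg, abs_of_nonneg h3]
  simp only [th]
  nlinarith

theorem t_EXK (hS : EXS_stmt) : EXK_stmt := by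
  intro α hα hα1
  obtain ⟨hN, hsum, C, hC, hCb⟩ := hS α hα hα1
  set D : ℕ → ℝ := fun j => (lev j ^ (1 / α) / 64) ^ (1 - α) with hDdef
  have hdd : ∀ j, 0 < lev j ^ (1 / α) / 64 := fun j => by
    have := lev_pos j; positivity
  have hD : ∀ j, 0 < D j := fun j => Real.rpow_pos_of_pos (hdd j) _
  have hDD : ∀ x : Idx α, dd α x ^ (1 - α) = D x.1 := fun x => rfl
  have hν : ∀ j, 0 ≤ (NN α j : ℝ) * D j := fun j => mul_nonneg (Nat.cast_nonneg _) (hD j).le
  refine ⟨?_, ?_⟩
  · rw [summable_sigma_of_nonneg (fun x => by rw [hDD]; exact (hD _).le)]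
    refine ⟨fun j => (hasSum_fintype _).summable, ?_⟩
    have : (fun j => ∑' y : Fin (NN α j), dd α ⟨j, y⟩ ^ (1 - α)) = fun j => (NN α j : ℝ) * D j := by
      funext j
      rw [tsum_fintype]
      simp [hDD]
    rw [this]
    exact hsum
  · set S : ℝ := ∑' j, (NN α j : ℝ) * D j with hSdef
    have hS0 : 0 ≤ S := tsum_nonneg hν
    set C' : ℝ := 64 + 4 * π * C with hC'
    have hπ := Real.pi_pos
    have hC'0 : 0 < C' := by positivity
    refine ⟨2 * S + 6 * C', by positivity, ?_⟩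
    intro z hz hz1 s hs
    have hr : 0 < ‖1 - z‖ := by
      rw [norm_pos_iff, sub_ne_zero]; exact fun h => hz1 h.symm
    set r := ‖1 - z‖ with hrdef
    classical
    -- the bound for one block
    have hblock : ∀ j, ∑ i ∈ Finset.univ.filter (fun i : Fin (NN α j) => (⟨j, i⟩ : Idx α) ∈ s),
        D j / ‖z - pp α ⟨j, i⟩‖ ≤ 2 * ((NN α j : ℝ) * D j) / r
          + (if (2 : ℝ) ^ (j + 1) < 3 / r then C' * 2 ^ (j + 1) else 0) := by
      intro j
      have hNpos : (0 : ℝ) < (NN α j : ℝ) := by exact_mod_cast hN j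
      have hL := lev_pos j
      by_cases hj : (2 : ℝ) ^ (j + 1) < 3 / r
      · rw [if_pos hj]
        have hκ : 0 < lev j / (π * NN α j) := by positivity
        have h := block_le (hN j) (fun i => pp α ⟨j, i⟩) hκ (hD j).le (hdd j)
          (sep_block α j (hN j)) z
          (Finset.univ.filter (fun i : Fin (NN α j) => (⟨j, i⟩ : Idx α) ∈ s))
          (fun i hi => hs _ (Finset.mem_filter.1 hi).2)
        refine h.trans ?_
        have h1 : D j / (lev j ^ (1 / α) / 64) ≤ 64 * 2 ^ (j + 1) := by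
          have e : D j / (lev j ^ (1 / α) / 64) = (lev j ^ (1 / α) / 64) ^ (-α) := by
            simp only [hDdef]
            rw [Real.rpow_sub (hdd j), Real.rpow_one, Real.rpow_neg (hdd j).le]
            have h0 := (hdd j).ne'
            have h0' := (Real.rpow_pos_of_pos (hdd j) α).ne'
            field_simp
          rw [e, Real.rpow_neg (hdd j).le, Real.div_rpow (by positivity) (by norm_num),
            ← Real.rpow_mul hL.le, one_div_mul_cancel hα.ne', Real.rpow_one, inv_div,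
            div_eq_mul_one_div, inv_lev]
          have h64 : (64 : ℝ) ^ α ≤ 64 := by
            calc (64 : ℝ) ^ α ≤ 64 ^ (1 : ℝ) :=
                  Real.rpow_le_rpow_of_exponent_le (by norm_num) hα1.le
              _ = 64 := Real.rpow_one _
          have : (0 : ℝ) < 2 ^ (j + 1) := by positivity
          nlinarith
        have h2 : 4 * D j / (lev j / (π * NN α j)) * (1 + Real.log (NN α j))
            ≤ 4 * π * C * 2 ^ (j + 1) := by
          have e : 4 * D j / (lev j / (π * NN α j)) * (1 + Real.log (NN α j))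
              = 4 * π * ((NN α j : ℝ) * D j * (1 + Real.log (NN α j))) * (1 / lev j) := by
            field_simp
          rw [e, inv_lev]
          have h3 := hCb j
          have h4 : (0 : ℝ) < 2 ^ (j + 1) := by positivity
          have h5 : (NN α j : ℝ) * D j * (1 + Real.log (NN α j)) ≤ C := h3
          have h6 : 4 * π * ((NN α j : ℝ) * D j * (1 + Real.log (NN α j))) ≤ 4 * π * C :=
            mul_le_mul_of_nonneg_left h5 (by positivity)
          exact mul_le_mul_of_nonneg_right h6 h4.le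
        have h7 : 0 ≤ 2 * ((NN α j : ℝ) * D j) / r := by
          have := hν j; positivity
        have e8 : C' * 2 ^ (j + 1) = 64 * 2 ^ (j + 1) + 4 * π * C * 2 ^ (j + 1) := by
          rw [hC']; ring
        rw [e8]
        linarith
      · rw [if_neg hj, add_zero]
        have hLr : lev j ≤ r / 3 := by
          rw [not_lt, ← inv_lev, div_le_div_iff₀ hr hL] at hj
          linarith
        have hfar : ∀ i : Fin (NN α j), r / 2 ≤ ‖z - pp α ⟨j, i⟩‖ := by
          intro i
          have h1 := near_one α j i (hN j)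
          have h2 : r ≤ ‖z - pp α ⟨j, i⟩‖ + ‖1 - pp α ⟨j, i⟩‖ := by
            have e : 1 - z = (1 - pp α ⟨j, i⟩) - (z - pp α ⟨j, i⟩) := by ring
            rw [hrdef, e]
            refine (norm_sub_le _ _).trans ?_
            linarith
          linarith
        calc ∑ i ∈ Finset.univ.filter (fun i : Fin (NN α j) => (⟨j, i⟩ : Idx α) ∈ s),
              D j / ‖z - pp α ⟨j, i⟩‖
            ≤ ∑ i ∈ Finset.univ.filter (fun i : Fin (NN α j) => (⟨j, i⟩ : Idx α) ∈ s),
              D j / (r / 2) := by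
              refine Finset.sum_le_sum fun i _ => ?_
              exact div_le_div_of_nonneg_left (hD j).le (by positivity) (hfar i)
          _ ≤ ∑ i : Fin (NN α j), D j / (r / 2) := by
              refine Finset.sum_le_sum_of_subset_of_nonneg (Finset.subset_univ _)
                fun i _ _ => ?_
              have := hD j
              positivity
          _ = 2 * ((NN α j : ℝ) * D j) / r := by
              rw [Finset.sum_const, Finset.card_univ, Fintype.card_fin, nsmul_eq_mul]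
              field_simp
    -- reorganise the sum
    have hre : ∑ i ∈ s, dd α i ^ (1 - α) / ‖z - pp α i‖
        = ∑ j ∈ s.image Sigma.fst,
          ∑ i ∈ Finset.univ.filter (fun i : Fin (NN α j) => (⟨j, i⟩ : Idx α) ∈ s),
            D j / ‖z - pp α ⟨j, i⟩‖ := by
      have e1 : s = ((s.image Sigma.fst).sigma
          (fun j => Finset.univ.filter (fun i : Fin (NN α j) => (⟨j, i⟩ : Idx α) ∈ s))) := by
        ext ⟨j, i⟩
        simp only [Finset.mem_sigma, Finset.mem_image, Finset.mem_filter, Finset.mem_univ,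
          true_and]
        constructor
        · intro h
          exact ⟨⟨⟨j, i⟩, h, rfl⟩, h⟩
        · exact fun h => h.2
      conv_lhs => rw [e1]
      rw [Finset.sum_sigma]
      rfl
    rw [hre]
    refine (Finset.sum_le_sum fun j _ => hblock j).trans ?_
    rw [Finset.sum_add_distrib]
    have hA : ∑ j ∈ s.image Sigma.fst, 2 * ((NN α j : ℝ) * D j) / r ≤ 2 * S / r := by
      have h1 : ∑ j ∈ s.image Sigma.fst, (NN α j : ℝ) * D j ≤ S :=
        hsum.sum_le_tsum _ fun i _ => hν i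
      have e : ∑ j ∈ s.image Sigma.fst, 2 * ((NN α j : ℝ) * D j) / r
          = 2 * (∑ j ∈ s.image Sigma.fst, (NN α j : ℝ) * D j) / r := by
        rw [Finset.mul_sum, Finset.sum_div]
      rw [e]
      exact div_le_div_of_nonneg_right (by linarith) hr.le
    have hB : ∑ j ∈ s.image Sigma.fst,
        (if (2 : ℝ) ^ (j + 1) < 3 / r then C' * 2 ^ (j + 1) else 0) ≤ 6 * C' / r := by
      rw [← Finset.sum_filter, ← Finset.mul_sum]
      have h1 := sum_pow_le ((s.image Sigma.fst).filter (fun j => (2 : ℝ) ^ (j + 1) < 3 / r))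
        (3 / r) (by positivity) (fun j hj => (Finset.mem_filter.1 hj).2)
      calc C' * ∑ j ∈ (s.image Sigma.fst).filter (fun j => (2 : ℝ) ^ (j + 1) < 3 / r),
            (2 : ℝ) ^ (j + 1) ≤ C' * (2 * (3 / r)) := mul_le_mul_of_nonneg_left h1 hC'0.le
        _ = 6 * C' / r := by ring
    calc _ ≤ 2 * S / r + 6 * C' / r := add_le_add hA hB
      _ = (2 * S + 6 * C') / r := by ring

end Pool.Agent.W521.PK
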